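import Pool.Agent.Y764.W.W8

/-!
# Widom factors of reflectionless measures: the optimal constant is `1`, for every degree

For every `n ≥ 1` and `ε > 0` there are a finite gap set `K ⊆ [-1, 1]` of capacity greater than `(1 - ε) / 2`
(the capacity of `[-1, 1]` is `1 / 2`) and a reflectionless measure `μ` on `K` with
`[W_n²(μ)]² < (1 + ε) S(μ)`. As `[W_n²(μ)]² ≥ S(μ)` for all measures, the constant `1` is optimal for
reflectionless measures on finite gap sets, for every degree `n` separately, instead of the conjectured `2`.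

`K = {x : |T_D(x)| ≤ s}` for the Chebyshev polynomial `T_D` of a large degree `D = 2 n N` and a small `s > 0`;
the density of `μ` with respect to the equilibrium measure is the quotient `q / U_{D-1}` of the polynomial
`q = U_{D-1} + 2 ∑_{m=1}^M (-r)^m U_{D-1-2nm}` (a truncated Poisson kernel transplanted to `K`) and `U_{D-1}`.
-/

set_option autoImplicit false

namespace Pool.Agent.Results.MP_7fabd3_an.OptimalConstantOne

open MeasureTheory Pool.Agent.H283R3.WidDefs

theorem result : ∀ n : ℕ, 1 ≤ n → ∀ ε : ℝ, 0 < ε →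
    ∃ (l : ℕ) (α β : Fin (l + 1) → ℝ) (γ : Fin l → ℝ) (μK : Measure ℝ),
      IsFiniteGap α β ∧ InGaps α β γ ∧ IsEquilibrium (bands α β) μK ∧
      IsProbabilityMeasure (reflM α β γ) ∧
      (widom (bands α β) (reflM α β γ) n) ^ 2 < (1 + ε) * szego (reflM α β γ) μK ∧
      bands α β ⊆ Set.Icc (-1) 1 ∧ (1 - ε) / 2 < cap (bands α β) :=
  Pool.Agent.Y764.W.main

end Pool.Agent.Results.MP_7fabd3_an.OptimalConstantOne
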